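import Mathlib
import Pool.Agent.Run7.h899.GS.Law3

set_option autoImplicit false

/-!
# The question in random models of the primes with a growing sieve

The question is whether every odd `n` is of the form `x² + y² + z² + 4w²` with natural numbers such
that `2 ^ x + 2 ^ y + 2 ^ z + 1` is prime.  We answer it, with an asymptotic formula for the number of
quadruples, in random models of the primes with a growing sieve: the integers are decided one after the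
other, no `m` with a prime factor at most `s(m)` is chosen, where `s` is ANY function with
`s(m) ≤ c (log log m) ^ 2`, `c > 0` fixed and small, and the conditional probability of choosing `m + 1`
(without prime factors at most `s(m + 1)`) given the past is asymptotic to
`∏_{q ≤ s(m + 1)} (1 - 1/q)⁻¹ / log m`.  No independence and no rate is assumed.

The law of large numbers (with an error `O((log n)³)`, for the small values) holds for all `n`.  The
expected number is at least `n ^ (1/2 - ε)` for all large odd `n` which are regular, that is without an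
exceptional prime in the range of the sieve; all `n` are regular if `s ≤ 40` (in the starting result
SievedModels the sieve was fixed and this was known for the primes up to `11`), and for every `s` the
`n ≡ 1 mod 4` for which `9n - 8` has no prime factor `l ≡ 3 mod 4`, `l ≥ 5`, and the `n ≡ 3 mod 4` for
which `3n - 8` has no prime factor `l ≡ 2 mod 3`, `l ≥ 5`, are regular.
-/

open MeasureTheory Filter
open scoped Topology

namespace Pool.Agent.Results.MP_f6c7cf_nt.GrowingSieveModels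

/-- the quadruples of natural numbers with `n = x² + y² + z² + 4w²` -/
def quads (n : ℕ) : Set (ℕ × ℕ × ℕ × ℕ) :=
  {v | n = v.1 ^ 2 + v.2.1 ^ 2 + v.2.2.1 ^ 2 + 4 * v.2.2.2 ^ 2}

/-- the value `2 ^ x + 2 ^ y + 2 ^ z + 1` -/
def form (v : ℕ × ℕ × ℕ × ℕ) : ℕ := 2 ^ v.1 + 2 ^ v.2.1 + 2 ^ v.2.2.1 + 1

/-- the number of quadruples of natural numbers with `n = x² + y² + z² + 4w²` for which
`2 ^ x + 2 ^ y + 2 ^ z + 1` belongs to `S` -/
noncomputable def R (S : Set ℕ) (n : ℕ) : ℕ := {v | v ∈ quads n ∧ form v ∈ S}.ncard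

/-- `∏_{q ≤ x} (1 - 1/q)⁻¹`, `q` prime -/
noncomputable def W (x : ℕ) : ℝ := ∏ q ∈ (Finset.Icc 1 x).filter Nat.Prime, (1 - (q : ℝ)⁻¹)⁻¹

open Classical in
/-- the density of the model at `m`: `W (s m) / log m` if `m` has no prime factor at most `s m`, and `0`
otherwise -/
noncomputable def rho (s : ℕ → ℕ) (m : ℕ) : ℝ :=
  if ∀ q, q.Prime → q ≤ s m → ¬ q ∣ m then W (s m) / Real.log m else 0

/-- the expected number of quadruples: the sum of `rho (2 ^ x + 2 ^ y + 2 ^ z + 1)` over all quadruples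
with `n = x² + y² + z² + 4w²` -/
noncomputable def E (s : ℕ → ℕ) (n : ℕ) : ℝ := ∑ᶠ v ∈ quads n, rho s (form v)

/-- `q` is exceptional for `n`: `q` is odd, and the order of `2` modulo `q` is divisible by `l²` for a prime
`l ≥ 5`, where `l ≡ 3 mod 4` divides `9n - 8` (if `n ≡ 1 mod 4`) or `l ≡ 2 mod 3` divides `3n - 8` (if
`n ≡ 3 mod 4`), or `q = 113`, `n ≡ 1 mod 4`, `n ≡ 4 mod 7`, or `q = 41`, `n ≡ 3 mod 4`, `n ≡ 1 mod 5` -/
def Exceptional (n q : ℕ) : Prop :=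
  q ≠ 2 ∧
  ((∃ l : ℕ, l.Prime ∧ 5 ≤ l ∧ l ^ 2 ∣ orderOf (2 : ZMod q) ∧
    ((n % 4 = 1 ∧ l % 4 = 3 ∧ (l : ℤ) ∣ 9 * n - 8) ∨ (n % 4 = 3 ∧ l % 3 = 2 ∧ (l : ℤ) ∣ 3 * n - 8))) ∨
  ((n % 4 = 1 ∧ n % 7 = 4 ∧ q = 113) ∨ (n % 4 = 3 ∧ n % 5 = 1 ∧ q = 41)))

/-- `n` is regular for the sieve `s`: no exceptional prime is in the range of the sieve at the values
`2 ^ x + 2 ^ y + 2 ^ z + 1 ≥ n` of the quadruples for `n` -/
def Regular (s : ℕ → ℕ) (n : ℕ) : Prop :=
  ∀ v ∈ quads n, n ≤ form v → ∀ q : ℕ, q.Prime → q ≤ s (form v) → ¬ Exceptional n q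

/-- the numbers `n` of the theorem: `n` is odd and regular, and no square of a prime `l` with
`c log n < l ≤ (log n)²` divides `n`; the last condition is dropped if `s(m) ≤ c log log m` for all
large `m` -/
def Admissible (c : ℝ) (s : ℕ → ℕ) (n : ℕ) : Prop :=
  Odd n ∧ Regular s n ∧
    ((∀ l : ℕ, l.Prime → c * Real.log n < l → (l : ℝ) ≤ (Real.log n) ^ 2 → ¬ l ^ 2 ∣ n) ∨
      ∀ᶠ m : ℕ in atTop, (s m : ℝ) ≤ c * Real.log (Real.log m))

open Pool.Agent.R494.SPL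

lemma quads_eq (n : ℕ) : quads n = ((quad3 n : Finset (ℕ × ℕ × ℕ × ℕ)) : Set (ℕ × ℕ × ℕ × ℕ)) := by
  ext v
  rw [Finset.mem_coe, mem_quad3]
  rfl

lemma E_eq (s : ℕ → ℕ) (n : ℕ) : E s n = ∑ v ∈ quad3 n, Pool.Agent.N233.GM.rho s (val3 v) := by
  unfold E
  rw [quads_eq, finsum_mem_coe_finset]
  rfl

lemma R_eq {Ω : Type} {A : ℕ → Set Ω} (ω : Ω) (n : ℕ) :
    (R {k : ℕ | ω ∈ A k} n : ℝ) = ∑ v ∈ quad3 n, Pool.Agent.R528.RM.In A (val3 v) ω := by
  classical
  have h0 : {v | v ∈ quads n ∧ form v ∈ {k : ℕ | ω ∈ A k}} =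
      (((quad3 n).filter (fun v => ω ∈ A (val3 v)) : Finset (ℕ × ℕ × ℕ × ℕ)) : Set (ℕ × ℕ × ℕ × ℕ)) := by
    ext v
    rw [Set.mem_ofPred_eq, quads_eq, Finset.mem_coe, Finset.mem_coe, Finset.mem_filter]
    rfl
  unfold R
  rw [h0, Set.ncard_coe_finset, Finset.card_filter]
  push_cast
  refine Finset.sum_congr rfl fun v _ => ?_
  unfold Pool.Agent.R528.RM.In
  by_cases h : ω ∈ A (val3 v)
  · simp [h]
  · simp [h]

lemma reg_of {s : ℕ → ℕ} {n : ℕ} (h : Regular s n) : Pool.Agent.Run7.h899.GS.Reg s n := by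
  intro v hv h1 q hq h2 h3
  refine h v ?_ h1 q hq h2 h3
  rw [quads_eq]
  exact hv

lemma regular_small (s : ℕ → ℕ) (hs : ∀ m, s m ≤ 40) (n : ℕ) : Regular s n := by
  intro v _ _ q hq h2 h3
  have := Pool.Agent.Run7.h899.GS.exc_ge n q hq h3
  have := hs (form v)
  omega

lemma admissible_small (c : ℝ) (hc : 0 < c) (s : ℕ → ℕ) (hs : ∀ m, s m ≤ 40) (n : ℕ) (hn : Odd n) :
    Admissible c s n := by
  refine ⟨hn, regular_small s hs n, Or.inr ?_⟩
  have h1 : Tendsto (fun m : ℕ => Real.log (Real.log (m : ℝ))) atTop atTop :=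
    Real.tendsto_log_atTop.comp (Real.tendsto_log_atTop.comp tendsto_natCast_atTop_atTop)
  filter_upwards [h1.eventually_ge_atTop (40 / c)] with m hm
  have h2 : (s m : ℝ) ≤ 40 := by exact_mod_cast hs m
  rw [div_le_iff₀ hc] at hm
  linarith

lemma regular_one (s : ℕ → ℕ) (n : ℕ) (h4 : n % 4 = 1)
    (h : ∀ l : ℕ, l.Prime → 5 ≤ l → l % 4 = 3 → ¬ (l : ℤ) ∣ 9 * n - 8) : Regular s n := by
  intro v _ _ q hq _ h3
  obtain ⟨-, ⟨l, hl, hl5, -, ⟨-, h1, h2⟩ | ⟨h1, -, -⟩⟩ | ⟨-, h1, -⟩ | ⟨h1, -, -⟩⟩ := h3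
  · exact h l hl hl5 h1 h2
  · omega
  · refine h 7 (by norm_num) (by norm_num) (by norm_num) ?_
    push_cast
    omega
  · omega

lemma regular_three (s : ℕ → ℕ) (n : ℕ) (h4 : n % 4 = 3)
    (h : ∀ l : ℕ, l.Prime → 5 ≤ l → l % 3 = 2 → ¬ (l : ℤ) ∣ 3 * n - 8) : Regular s n := by
  intro v _ _ q hq _ h3
  obtain ⟨-, ⟨l, hl, hl5, -, ⟨h1, -, -⟩ | ⟨-, h1, h2⟩⟩ | ⟨h1, -, -⟩ | ⟨-, h1, -⟩⟩ := h3
  · omega
  · exact h l hl hl5 h1 h2
  · omega
  · refine h 5 (by norm_num) (by norm_num) (by norm_num) ?_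
    push_cast
    omega

/-- **Models with a growing sieve.**  For every `ε > 0` there is `c > 0` such that the following holds.
Let `S n` be the event that `n` is chosen, adapted to a filtration `ℱ`.  Let `s(n)` be natural numbers with
`s(n) ≤ c (log log n) ^ 2` for all large `n`, let no `n` with a prime factor at most `s(n)` be chosen, and
let the conditional probability of `S (n + 1)` given `ℱ n`, times `log n / ∏_{q ≤ s(n + 1)} (1 - 1/q)⁻¹`,
tend to `1` along the `n` for which `n + 1` has no prime factor at most `s(n + 1)`, almost surely.  Let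
`R(n)` be the number of quadruples of natural numbers with `n = x² + y² + z² + 4w²` for which
`2 ^ x + 2 ^ y + 2 ^ z + 1` is chosen, and `E(n)` the expected number.
(1) Almost surely, for every `η > 0` there is `K` with `|R(n) - E(n)| ≤ η E(n) + K (log n)³` for all large
`n`.  (2) `E(n) ≥ n ^ (1/2 - ε)` for all large admissible `n`.  (3) Almost surely `R(n) / E(n)` tends to `1`
as `n → ∞`, `n` admissible.  (4) Almost surely `R(n) ≥ n ^ (1/2 - ε)` for all large admissible `n`.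
(5) If `s(m) ≤ 40` for all `m` then all odd `n` are admissible.  (6) For every `s`, the `n ≡ 1 mod 4` for
which `9n - 8` has no prime factor `l ≡ 3 mod 4`, `l ≥ 5`, and the `n ≡ 3 mod 4` for which `3n - 8` has no
prime factor `l ≡ 2 mod 3`, `l ≥ 5`, are regular. -/
theorem result (ε : ℝ) (hε : 0 < ε) : ∃ c : ℝ, 0 < c ∧
    ∀ {Ω : Type} [mΩ : MeasurableSpace Ω] (μ : Measure Ω) [IsProbabilityMeasure μ]
    (ℱ : Filtration ℕ mΩ) (S : ℕ → Set Ω) (_ : ∀ n, MeasurableSet[ℱ n] (S n)) (s : ℕ → ℕ)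
    (_ : ∀ᶠ n : ℕ in atTop, (s n : ℝ) ≤ c * Real.log (Real.log n) ^ 2)
    (_ : ∀ n, (∃ q, q.Prime ∧ q ≤ s n ∧ q ∣ n) → S n = ∅)
    (_ : ∀ᵐ ω ∂μ, Tendsto (fun n : ℕ =>
      (μ[(S (n + 1)).indicator (fun _ => (1 : ℝ)) | ℱ n]) ω * Real.log n / W (s (n + 1)))
      (atTop ⊓ 𝓟 {n : ℕ | ∀ q, q.Prime → q ≤ s (n + 1) → ¬ q ∣ n + 1}) (𝓝 1)),
    (∀ᵐ ω ∂μ, ∀ η : ℝ, 0 < η → ∃ K : ℝ, ∀ᶠ n : ℕ in atTop,
      |(R {k | ω ∈ S k} n : ℝ) - E s n| ≤ η * E s n + K * Real.log n ^ 3) ∧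
    (∀ᶠ n : ℕ in atTop, Admissible c s n → (n : ℝ) ^ (1 / 2 - ε) ≤ E s n) ∧
    (∀ᵐ ω ∂μ, Tendsto (fun n : ℕ => (R {k | ω ∈ S k} n : ℝ) / E s n)
      (atTop ⊓ 𝓟 {n : ℕ | Admissible c s n}) (𝓝 1)) ∧
    (∀ᵐ ω ∂μ, ∀ᶠ n : ℕ in atTop, Admissible c s n → (n : ℝ) ^ (1 / 2 - ε) ≤ R {k | ω ∈ S k} n) ∧
    ((∀ m, s m ≤ 40) → ∀ n : ℕ, Odd n → Admissible c s n) ∧
    (∀ n : ℕ, n % 4 = 1 → (∀ l : ℕ, l.Prime → 5 ≤ l → l % 4 = 3 → ¬ (l : ℤ) ∣ 9 * n - 8) →
      Regular s n) ∧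
    (∀ n : ℕ, n % 4 = 3 → (∀ l : ℕ, l.Prime → 5 ≤ l → l % 3 = 2 → ¬ (l : ℤ) ∣ 3 * n - 8) →
      Regular s n) := by
  classical
  set e : ℝ := min ε (1 / 8) with he
  have he0 : 0 < e := lt_min hε (by norm_num)
  have he1 : e ≤ 1 / 8 := min_le_right _ _
  have heε : e ≤ ε := min_le_left _ _
  obtain ⟨c, hc, hlow⟩ := Pool.Agent.Run7.h899.GS.low_all e he0 (by linarith)
  refine ⟨c, hc, ?_⟩
  intro Ω mΩ μ hμ ℱ S hS s hs hsieve hd
  have hV := Pool.Agent.N233.GM.short _ s hs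
  have hcop : ∀ n, ¬ Pool.Agent.N233.GM.Rough s n → S n = ∅ := by
    intro n hn
    unfold Pool.Agent.N233.GM.Rough at hn
    push Not at hn
    exact hsieve n hn
  have hprof := Pool.Agent.N233.GM.profile (μ := μ) (ℱ := ℱ) (A := S) s hV hcop hd
  have hlaw := Pool.Agent.Run7.h899.GS.law3g (μ := μ) (ℱ := ℱ) (A := S) hS s hV hprof
  have hE : ∀ᶠ n : ℕ in atTop, Admissible c s n → 2 * (n : ℝ) ^ (1 / 2 - e) ≤ E s n := by
    filter_upwards [hlow s hs] with n h1 hn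
    rw [E_eq]
    exact h1 ⟨hn.1, reg_of hn.2.1, hn.2.2⟩
  have hpow : ∀ᶠ n : ℕ in atTop, (n : ℝ) ^ (1 / 2 - ε) ≤ (n : ℝ) ^ (1 / 2 - e) := by
    filter_upwards [eventually_ge_atTop 1] with n hn
    exact Real.rpow_le_rpow_of_exponent_le (by exact_mod_cast hn) (by linarith)
  have h1 : ∀ᵐ ω ∂μ, ∀ η : ℝ, 0 < η → ∃ K : ℝ, ∀ᶠ n : ℕ in atTop,
      |(R {k | ω ∈ S k} n : ℝ) - E s n| ≤ η * E s n + K * Real.log n ^ 3 := by
    filter_upwards [hlaw] with ω hω η hη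
    obtain ⟨K, hK⟩ := hω η hη
    refine ⟨K, ?_⟩
    filter_upwards [hK] with n hn
    rw [E_eq, R_eq]
    exact hn
  have key : ∀ᵐ ω ∂μ, ∀ η : ℝ, 0 < η → ∀ᶠ n : ℕ in atTop, Admissible c s n →
      |(R {k | ω ∈ S k} n : ℝ) - E s n| ≤ η * E s n := by
    filter_upwards [h1] with ω hω η hη
    obtain ⟨K, hK⟩ := hω (η / 2) (by positivity)
    have e3 := (isLittleO_log_rpow_rpow_atTop (3 : ℝ) (show (0 : ℝ) < 1 / 4 by norm_num)).bound
      (show (0 : ℝ) < η / (|K| + 1) by positivity)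
    filter_upwards [hK, hE, tendsto_natCast_atTop_atTop.eventually e3, eventually_ge_atTop 1]
      with n g1 g2 g3 g4 hn
    have hn1 : (1 : ℝ) ≤ n := by exact_mod_cast g4
    have hn0 : (0 : ℝ) < n := by linarith
    have hl : 0 ≤ Real.log (n : ℝ) := Real.log_nonneg hn1
    rw [Real.norm_eq_abs, Real.norm_eq_abs, abs_of_nonneg (Real.rpow_nonneg hl _),
      abs_of_nonneg (Real.rpow_nonneg hn0.le _)] at g3
    have e5 : Real.log n ^ (3 : ℝ) = Real.log n ^ (3 : ℕ) := by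
      rw [← Real.rpow_natCast]; norm_num
    rw [e5] at g3
    have k3 : K * Real.log n ^ 3 ≤ η * (n : ℝ) ^ (1 / 4 : ℝ) := by
      calc K * Real.log n ^ 3 ≤ (|K| + 1) * Real.log n ^ 3 := by
            apply mul_le_mul_of_nonneg_right _ (by positivity)
            have := le_abs_self K
            linarith
        _ ≤ (|K| + 1) * (η / (|K| + 1) * (n : ℝ) ^ (1 / 4 : ℝ)) := by gcongr
        _ = _ := by field_simp
    have k4 : (n : ℝ) ^ (1 / 4 : ℝ) ≤ (n : ℝ) ^ (1 / 2 - e) :=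
      Real.rpow_le_rpow_of_exponent_le hn1 (by linarith)
    have k5 := g2 hn
    have k6 : η * (n : ℝ) ^ (1 / 4 : ℝ) ≤ η / 2 * E s n := by
      have : η * (n : ℝ) ^ (1 / 4 : ℝ) ≤ η * (n : ℝ) ^ (1 / 2 - e) := mul_le_mul_of_nonneg_left k4 hη.le
      nlinarith
    linarith
  refine ⟨h1, ?_, ?_, ?_, fun h n hn => admissible_small c hc s h n hn, fun n a b => regular_one s n a b,
    fun n a b => regular_three s n a b⟩
  · filter_upwards [hE, hpow, eventually_ge_atTop 1] with n h1 h2 h3 hn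
    have h4 : (0 : ℝ) < (n : ℝ) ^ (1 / 2 - e) := Real.rpow_pos_of_pos (by exact_mod_cast h3) _
    linarith [h1 hn]
  · filter_upwards [key] with ω hω
    rw [Metric.tendsto_nhds]
    intro η hη
    rw [eventually_inf_principal]
    filter_upwards [hω (η / 2) (by positivity), hE, eventually_ge_atTop 1] with n h1 h2 h3 hn
    have hn' : Admissible c s n := hn
    have h4 : (0 : ℝ) < (n : ℝ) ^ (1 / 2 - e) := Real.rpow_pos_of_pos (by exact_mod_cast h3) _
    have h5 : 0 < E s n := by linarith [h2 hn']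
    rw [Real.dist_eq, show (R {k | ω ∈ S k} n : ℝ) / E s n - 1 = ((R {k | ω ∈ S k} n : ℝ) - E s n) / E s n by
      field_simp, abs_div, abs_of_pos h5, div_lt_iff₀ h5]
    have := h1 hn'
    nlinarith
  · filter_upwards [key] with ω hω
    filter_upwards [hω (1 / 2) (by norm_num), hE, hpow] with n h1 h2 h3 hn
    have h5 := (abs_le.1 (h1 hn)).1
    have h6 := h2 hn
    linarith

end Pool.Agent.Results.MP_f6c7cf_nt.GrowingSieveModels
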