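import Mathlib
import Pool.Agent.Run7.h129.BU.TL
import Pool.Agent.Results.MP_f6c7cf_nt.SquareRootBarrier

/-!
# `n = x² + y² + z² + 4 w²` and `2 ^ x + 2 ^ y + 2 ^ z + 1` for the terms `n = ⌊β m ^ κ⌋` of sparse sequences

For every `κ ≥ 1` there is a set `E κ` of real numbers, of Hausdorff dimension less than one, such that for all
`β > 0` outside of `E κ`: for at least `c M / log M` of the `m ≤ M` the number `n = ⌊β m ^ κ⌋` is odd and of the form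
`x² + y² + z² + 4 w²` where all prime factors of `2 ^ x + 2 ^ y + 2 ^ z + 1` are larger than `c √n log n`. The starting
theorem `SquareRootBarrier` is the case of all `n ≤ X`.

The law for arbitrary sets of integers along `⌊β m ^ κ⌋` is `Pool.Agent.Run7.h129.BU.main_U`.
-/

set_option autoImplicit false

open Filter MeasureTheory

namespace Pool.Agent.Results.MP_f6c7cf_nt.SparseSequences

/-- `n` is odd and `n = x² + y² + z² + 4 w²` with natural numbers for which all prime factors of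
`2 ^ x + 2 ^ y + 2 ^ z + 1` are larger than `c √n log n`. -/
def Good (c : ℝ) (n : ℕ) : Prop :=
  Odd n ∧ ∃ x y z w : ℕ, n = x ^ 2 + y ^ 2 + z ^ 2 + 4 * w ^ 2 ∧
    ∀ q : ℕ, q.Prime → q ∣ 2 ^ x + 2 ^ y + 2 ^ z + 1 → c * √(n : ℝ) * Real.log n < q

/-- The number of the `1 ≤ m ≤ M` for which `⌊β m ^ κ⌋` has the property `P`. -/
noncomputable def count (β κ : ℝ) (P : ℕ → Prop) (M : ℕ) : ℕ :=
  {m : ℕ | 1 ≤ m ∧ m ≤ M ∧ P ⌊β * (m : ℝ) ^ κ⌋₊}.ncard

/-- There are sets `E κ` of real numbers, of Hausdorff dimension less than one for all `κ ≥ 1`, and `c > 0` such that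
for all `κ ≥ 1` there is `c' > 0` such that for all real `β > 0` not in `E κ` and all large `M` at least
`c' M / log M` of the `m ≤ M` are such that `n = ⌊β m ^ κ⌋` is odd and `n = x² + y² + z² + 4 w²` with all prime
factors of `2 ^ x + 2 ^ y + 2 ^ z + 1` larger than `c √n log n`. -/
theorem result : ∃ E : ℝ → Set ℝ, (∀ κ : ℝ, 1 ≤ κ → dimH (E κ) < 1) ∧
    ∃ c : ℝ, 0 < c ∧ ∀ κ : ℝ, 1 ≤ κ → ∃ c' : ℝ, 0 < c' ∧ ∀ β : ℝ, 0 < β → β ∉ E κ →
      ∀ᶠ M : ℕ in atTop, c' * (M / Real.log M) ≤ (count β κ (Good c) M : ℝ) := by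
  obtain ⟨c, hc, X₀, h⟩ := Pool.Agent.Results.MP_f6c7cf_nt.SquareRootBarrier.result
  have hbase : ∀ᶠ x : ℕ in atTop, c * (x / (Real.log x) ^ 1) ≤
      ({n : ℕ | 1 ≤ n ∧ (n : ℝ) ≤ x ∧ n ∈ {n : ℕ | Good c n}}.ncard : ℝ) := by
    filter_upwards [eventually_ge_atTop X₀] with X hX
    have h1 := h X hX
    rw [pow_one, mul_div_assoc']
    refine h1.trans ?_
    rw [Nat.cast_le]
    refine Set.ncard_le_ncard ?_ ((Set.finite_Iic X).subset fun n hn => by exact_mod_cast hn.2.1)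
    rintro n ⟨hn, hodd, x, y, z, w, hxyz, hq⟩
    have hn1 : 1 ≤ n := hodd.pos
    refine ⟨hn1, by exact_mod_cast hn, hodd, x, y, z, w, hxyz, fun q hqp hqd => lt_of_le_of_lt ?_ (hq q hqp hqd)⟩
    have hnR : (1 : ℝ) ≤ n := by exact_mod_cast hn1
    have hnX : (n : ℝ) ≤ X := by exact_mod_cast hn
    have e1 : Real.log n ≤ Real.log X := Real.log_le_log (by linarith) hnX
    have e2 : 0 ≤ Real.log n := Real.log_nonneg hnR
    have e3 : √(n : ℝ) ≤ √(X : ℝ) := Real.sqrt_le_sqrt hnX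
    gcongr
  have key : ∀ κ : ℝ, ∃ E : Set ℝ, 1 ≤ κ → (dimH E < 1 ∧ ∃ a : ℝ, 0 < a ∧ ∀ β : ℝ, 0 < β → β ∉ E → ∃ C : ℝ,
      ∀ M : ℕ, 1 ≤ M → |(Pool.Agent.Run7.h129.BU.cntA {n : ℕ | Good c n} β κ M : ℝ) -
        Pool.Agent.Run7.h129.BU.volA {n : ℕ | Good c n} β κ M| ≤ C * (M : ℝ) ^ (1 - a)) := by
    intro κ
    by_cases hκ : 1 ≤ κ
    · obtain ⟨a, D, ha, ha1, hD0, hD, h⟩ := Pool.Agent.Run7.h129.BU.main_U (by linarith : 0 < κ)
      obtain ⟨E, hE, hEβ⟩ := h {n : ℕ | Good c n}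
      refine ⟨E, fun _ => ⟨lt_of_le_of_lt hE ?_, a, ha, hEβ⟩⟩
      rw [← ENNReal.ofReal_one]
      exact (ENNReal.ofReal_lt_ofReal_iff one_pos).2 hD
    · exact ⟨∅, fun h => absurd h hκ⟩
  choose E hE using key
  refine ⟨E, fun κ hκ => (hE κ hκ).1, c, hc, fun κ hκ => ?_⟩
  obtain ⟨a, ha, haβ⟩ := (hE κ hκ).2
  refine ⟨c / (4 * κ * (2 * κ) ^ 1), by positivity, fun β hβ hβE => ?_⟩
  have := Pool.Agent.Run7.h129.BU.tr_log 1 hβ hκ ha hc (haβ β hβ hβE) hbase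
  filter_upwards [this] with M hM
  rw [pow_one (Real.log (M : ℝ))] at hM
  exact hM

end Pool.Agent.Results.MP_f6c7cf_nt.SparseSequences
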