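import Pool.Agent.Run7.h870.FT.Mn

/-!
# MP_f6c7cf_nt: `n = x ^ 2 + y ^ 2 + z ^ 2 + 4 * w ^ 2` with `2 ^ x + 2 ^ y + 2 ^ z + a` prime, for a positive proportion of the constants `a`

The problem asks, for every odd `n`, for natural numbers `x, y, z, w` with
`n = x ^ 2 + y ^ 2 + z ^ 2 + 4 * w ^ 2` and `2 ^ x + 2 ^ y + 2 ^ z + 1` prime. Here the constant `1` is
replaced by `a`: for a positive proportion of the `a ≤ X` a positive proportion of the odd `n ≤ N` have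
the expected order `N / log X` of such quadruples.
-/

set_option autoImplicit false

open Finset

namespace Pool.Agent.Results.MP_f6c7cf_nt.TypicalConstants

/-- the quadruples `(x, y, z, w)` of natural numbers with `n = x ^ 2 + y ^ 2 + z ^ 2 + 4 * w ^ 2` for which
`2 ^ x + 2 ^ y + 2 ^ z + a` is prime (for `a = 1` the admissible quadruples of the problem) -/
def quads (n a : ℕ) : Set (ℕ × ℕ × ℕ × ℕ) :=
  {q | n = q.1 ^ 2 + q.2.1 ^ 2 + q.2.2.1 ^ 2 + 4 * q.2.2.2 ^ 2 ∧ (2 ^ q.1 + 2 ^ q.2.1 + 2 ^ q.2.2.1 + a).Prime}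

/-- the odd `n ≤ N` with at least `t` such quadruples -/
noncomputable def many (N a : ℕ) (t : ℝ) : ℕ :=
  Set.ncard {n : ℕ | n ≤ N ∧ Odd n ∧ t ≤ ((quads n a).ncard : ℝ)}

/-- There are `c > 0` and `N₀` such that for all `N ≥ N₀` and all `X` with `2 ^ √N ≤ X` and
`log X ≤ N`: for at least `c * X` of the integers `1 ≤ a ≤ X`, at least `c * N` of the odd
`n ≤ N` are in at least `c * N / log X` ways of the form `x ^ 2 + y ^ 2 + z ^ 2 + 4 * w ^ 2` with
`2 ^ x + 2 ^ y + 2 ^ z + a` prime. -/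
theorem result : ∃ c : ℝ, 0 < c ∧ ∃ N₀ : ℕ, ∀ N : ℕ, N₀ ≤ N → ∀ X : ℕ, (2 : ℝ) ^ √(N : ℝ) ≤ X →
    Real.log X ≤ N →
    c * X ≤ (Set.ncard {a : ℕ | 1 ≤ a ∧ a ≤ X ∧ c * N ≤ (many N a (c * (N / Real.log X)) : ℝ)} : ℝ) := by
  classical
  obtain ⟨c, hc, N₀, h⟩ := Run7.h870.FT.main
  refine ⟨c, hc, N₀, fun N hN X hX hXN => ?_⟩
  refine (h N hN X hX hXN).trans ?_
  rw [Nat.cast_le, ← Set.ncard_coe_finset]
  apply Set.ncard_le_ncard
  · intro a ha
    rw [mem_coe, mem_filter, mem_Icc] at ha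
    refine ⟨ha.1.1, ha.1.2, ha.2.trans ?_⟩
    rw [Nat.cast_le, ← Set.ncard_coe_finset]
    apply Set.ncard_le_ncard
    · intro n hn
      rw [mem_coe, mem_filter, mem_Icc] at hn
      exact ⟨hn.1.2, hn.2.1, hn.2.2⟩
    · exact (Set.finite_Iic N).subset (fun n hn => hn.1)
  · exact (Set.finite_Iic X).subset (fun a ha => ha.2.1)

end Pool.Agent.Results.MP_f6c7cf_nt.TypicalConstants
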